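import Mathlib

namespace Pool.Agent.H.MP_9b13a2_co

open Finset SimpleGraph

/-- Path-pairable: even order, and every pairing of all vertices is joined by edge-disjoint paths. -/
def PathPairable {V : Type} [Fintype V] (G : SimpleGraph V) : Prop :=
  Even (Fintype.card V) ∧ ∀ (k : ℕ) (s t : Fin k → V), Function.Bijective (Sum.elim s t) →
    ∃ P : ∀ i, G.Walk (s i) (t i), (∀ i, (P i).IsPath) ∧
      ∀ i j, i ≠ j → ∀ e ∈ (P i).edges, e ∉ (P j).edges

def Gv {V : Type} (E : V → V → Prop) (O : V → V → V) (v : V) : SimpleGraph V :=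
  fromRel fun x y => E x y ∧ O x y = v

theorem pp {V : Type} [Fintype V] (E : V → V → Prop) (hE : ∀ x y, E x y → ¬ E y x)
    (he : Even (Fintype.card V)) (h : ∀ σ : V → V, (∀ v, σ (σ v) = v) → (∀ v, σ v ≠ v) →
      ∃ O : V → V → V, ∀ v, ∃ x, (Gv E O v).Reachable v x ∧ (Gv E O (σ v)).Reachable (σ v) x) :
    PathPairable (fromRel E) := by
  classical
  refine ⟨he, fun k s t hb => ?_⟩
  let e := Equiv.ofBijective _ hb
  obtain ⟨O, hO⟩ := h (fun v => e (e.symm v).swap) (by simp) (fun v h => by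
    have := e.symm_apply_apply _ ▸ congrArg e.symm h
    revert this
    cases e.symm v <;> simp)
  have own : ∀ u v, ∀ e ∈ (Gv E O u).edgeSet, e ∈ (Gv E O v).edgeSet → u = v := by
    rintro u v ⟨x, y⟩ ⟨-, h | h⟩ ⟨-, h' | h'⟩
    · exact h.2.symm.trans h'.2
    · exact absurd h'.1 (hE _ _ h.1)
    · exact absurd h'.1 (hE _ _ h.1)
    · exact h.2.symm.trans h'.2
  have key : ∀ i, ∃ p : (fromRel E).Walk (s i) (t i), p.IsPath ∧
      ∀ e ∈ p.edges, e ∈ (Gv E O (s i)).edgeSet ∨ e ∈ (Gv E O (t i)).edgeSet := by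
    intro i
    obtain ⟨x, h1, h2⟩ := hO (s i)
    rw [show e (e.symm (s i)).swap = t i by
      rw [show s i = e (.inl i) from rfl, e.symm_apply_apply]; rfl] at h2
    obtain ⟨p, hp⟩ := ((h1.mono (le_sup_left (b := Gv E O (t i)))).trans
      (h2.mono le_sup_right).symm).exists_isPath
    have hle : Gv E O (s i) ⊔ Gv E O (t i) ≤ fromRel E :=
      sup_le (fun _ _ h => ⟨h.1, h.2.imp And.left And.left⟩)
        (fun _ _ h => ⟨h.1, h.2.imp And.left And.left⟩)
    refine ⟨p.mapLe hle, hp.mapLe hle, fun e he => ?_⟩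
    rw [Walk.edges_mapLe_eq_edges] at he
    simpa [edgeSet_sup] using p.edges_subset_edgeSet he
  choose P h1 h2 using key
  refine ⟨P, h1, fun i j hij e a b => hij ?_⟩
  rcases h2 i e a with a | a <;> rcases h2 j e b with b | b
  · simpa using @hb.1 (.inl i) (.inl j) (own _ _ e a b)
  · simpa using @hb.1 (.inl i) (.inr j) (own _ _ e a b)
  · simpa using @hb.1 (.inr i) (.inl j) (own _ _ e a b)
  · simpa using @hb.1 (.inr i) (.inr j) (own _ _ e a b)

theorem greedy {V : Type} [DecidableEq V] (Γ : Finset V) (σ τ : V → V) (hσ : ∀ v, σ (σ v) = v)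
    (hτ : ∀ v, τ (τ v) = v) (h1 : ∀ v, σ v ≠ v) (h2 : ∀ v ∈ Γ, τ v ≠ v) :
    ∃ A ⊆ Γ, Γ.card ≤ 5 * A.card ∧
      ∀ w ∈ A, τ w ∉ A ∧ σ w ∉ A ∧ (τ (σ w) ∈ A → τ (σ w) = w) := by
  obtain ⟨A, hA, hm⟩ := exists_max_image (Γ.powerset.filter fun A =>
    ∀ w ∈ A, τ w ∉ A ∧ σ w ∉ A ∧ (τ (σ w) ∈ A → τ (σ w) = w)) card ⟨∅, by simp⟩
  obtain ⟨hA, hI⟩ := mem_filter.mp hA
  rw [mem_powerset] at hA
  refine ⟨A, hA, ?_, hI⟩
  have : Γ ⊆ A.biUnion fun a => {a, τ a, σ a, τ (σ a), σ (τ a)} := by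
    intro x hx
    by_contra hc
    simp only [mem_biUnion, mem_insert, mem_singleton, not_exists, not_and, not_or] at hc
    have hxA : x ∉ A := fun h => (hc x h).1 rfl
    have := hm (insert x A) (mem_filter.mpr ⟨mem_powerset.mpr (insert_subset hx hA), ?_⟩)
    · rw [card_insert_of_notMem hxA] at this
      omega
    intro w hw
    simp only [mem_insert, not_or] at hw ⊢
    rcases hw with rfl | hw
    · refine ⟨⟨h2 w hx, fun h => (hc _ h).2.1 (hτ w).symm⟩, ⟨h1 w, fun h => (hc _ h).2.2.1 (hσ w).symm⟩,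
        fun h => h.elim id fun h => absurd (by rw [hτ, hσ]) (hc _ h).2.2.2.2⟩
    · obtain ⟨a, b, c⟩ := hI w hw
      obtain ⟨-, d, e, f, -⟩ := hc w hw
      exact ⟨⟨Ne.symm d, a⟩, ⟨Ne.symm e, b⟩, fun h => h.elim (fun h => absurd h.symm f) c⟩
  refine (card_le_card this).trans (card_biUnion_le.trans ?_)
  rw [mul_comm]
  exact sum_le_card_nsmul _ _ _ fun a _ => card_le_five

end Pool.Agent.H.MP_9b13a2_co
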