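import Mathlib
import Pool.Agent.H.MP_9b13a2_co.A
import Pool.Agent.Lib.helper5.Book

namespace Pool.Agent.H.MP_9b13a2_co

open Finset SimpleGraph

def Ok (D : ℕ) (p : ℕ × ℕ) : Prop :=
  p.1 ≤ D ∧ p.2 < if p.1 = D then 2 * 2 ^ D * 2 ^ 2 ^ D else 2 ^ p.1

instance (D : ℕ) : DecidablePred (Ok D) := fun p => by unfold Ok; infer_instance

abbrev T (D : ℕ) := {p : ℕ × ℕ // Ok D p}

noncomputable instance (D : ℕ) : Fintype (T D) := Set.Finite.fintype (Set.Finite.subset
  ((Set.finite_Iic D).prod (Set.finite_Iio (2 * 2 ^ D * 2 ^ 2 ^ D + 2 ^ D))) (by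
    rintro ⟨d, x⟩ ⟨h1, h2⟩
    have := Nat.pow_le_pow_right (n := 2) (by norm_num) h1
    refine ⟨h1, ?_⟩
    simp only [Set.mem_Iio] at *
    have : 0 < 2 ^ D := by positivity
    split_ifs at h2 <;> omega))

abbrev W (D a b : ℕ) := T D ⊕ Bool ⊕ Fin a ⊕ Fin b × Bool

variable {D a b : ℕ}

abbrev hub (c : Bool) : W D a b := .inr (.inl c)

def sc (D d : ℕ) : ℕ := if d = D then 2 ^ 2 ^ D else 1

inductive E : W D a b → W D a b → Prop
  | tr (p q : T D) (y : ℕ) : q.1.1 = p.1.1 + 1 → y / 2 = p.1.2 → q.1.2 = y * sc D q.1.1 →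
      E (.inl p) (.inl q)
  | sp (p q : T D) (j : ℕ) : p.1.1 = D → q.1.1 = D → j < 2 ^ D → 2 ^ j ∣ p.1.2 →
      q.1.2 = p.1.2 + 2 ^ j → E (.inl p) (.inl q)
  | h0 (p : T D) : p.1.1 = D → E (.inl p) (hub false)
  | h1 (p : T D) : p.1.1 = D → 2 ^ 2 ^ D ∣ p.1.2 → 2 ^ D * 2 ^ 2 ^ D ≤ p.1.2 → E (.inl p) (hub true)
  | lf (i : Fin a) : E (.inr (.inr (.inl i))) (hub false)
  | m0 (m : Fin b × Bool) : E (.inr (.inr (.inr m))) (hub false)
  | m1 (m : Fin b × Bool) : E (.inr (.inr (.inr m))) (hub true)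
  | mm (j : Fin b) : E (.inr (.inr (.inr (j, false)))) (.inr (.inr (.inr (j, true))))

def lv : W D a b → ℕ
  | .inl p => p.1.1
  | .inr (.inl c) => D + 4 - c.toNat
  | .inr (.inr (.inl _)) => D + 2
  | .inr (.inr (.inr _)) => D + 1

def ix : W D a b → ℤ
  | .inl p => if (D - p.1.1) % 2 = 0 then p.1.2 else -p.1.2
  | .inr (.inl _) => 0
  | .inr (.inr (.inl i)) => i
  | .inr (.inr (.inr m)) => 2 * m.1 + m.2.toNat

def pos (v : W D a b) : ℕ ×ₗ ℤ := toLex (lv v, ix v)

def pg : W D a b → W D a b → Bool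
  | _, .inr (.inl c) => !c
  | .inl p, _ => decide ((D - p.1.1) % 2 = 0 ∧ p.1.1 < D)
  | _, _ => false

theorem pos_lt (u v : W D a b) : pos u < pos v ↔ lv u < lv v ∨ lv u = lv v ∧ ix u < ix v :=
  Prod.Lex.toLex_lt_toLex

theorem pos_inj : Function.Injective (pos : W D a b → _) := by
  intro u v h
  obtain ⟨h1, h2⟩ := Prod.mk.inj (toLex.injective h)
  rcases u with p | (_ | _) | i | ⟨j, _ | _⟩ <;> rcases v with q | (_ | _) | i' | ⟨j', _ | _⟩ <;>
    (try have := p.2.1) <;> (try have := q.2.1) <;>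
    simp only [lv, ix, Bool.toNat_true, Bool.toNat_false] at h1 h2 <;>
    first | omega | rfl | skip
  · rw [h1] at h2
    exact congrArg _ (Subtype.ext (Prod.ext h1 (by split_ifs at h2 <;> omega)))
  · rw [Fin.ext (show i.1 = i' by omega)]
  · rw [Fin.ext (show j.1 = j' by omega)]
  · rw [Fin.ext (show j.1 = j' by omega)]

theorem E_lt {u v : W D a b} (h : E u v) : pos u < pos v ∧ lv v ≤ lv u + 4 := by
  rw [pos_lt]
  cases h with
  | sp p q j h1 h2 h3 h4 h5 =>
    have : 0 < 2 ^ j := by positivity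
    simp only [lv, ix, h1, h2, h5]
    simp
  | _ => simp_all [lv, ix]

theorem dy {q x y : ℕ} (h1 : q ∣ x) (h2 : q ∣ y) (h3 : x < y) (h4 : y < x + q) : False := by
  have := Nat.le_of_dvd (by omega) (Nat.dvd_sub h2 h1)
  omega

theorem nocross (u v x y : W D a b) (h : E u v) (h' : E x y) (hp : pg u v = pg x y) :
    ¬ (pos u < pos x ∧ pos x < pos v ∧ pos v < pos y) := by
  simp only [pos_lt]
  rintro ⟨c1, c2, c3⟩
  have hR : ∀ j < 2 ^ D, 2 ^ j ∣ 2 ^ 2 ^ D := fun j h => pow_dvd_pow _ h.le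
  have b : ∀ p : T D, p.1.1 ≤ D := fun p => p.2.1
  cases h <;> cases h' <;>
    simp only [lv, ix, pg, Bool.toNat_true, Bool.toNat_false, Bool.not_true, Bool.not_false,
      Bool.true_eq_false, Bool.false_eq_true, decide_eq_decide, decide_eq_true_eq, decide_eq_false_iff_not, 
      true_eq_decide_iff, false_eq_decide_iff] at c1 c2 c3 hp <;>
    first | omega | skip
  case tr.tr p q y h1 h2 h3 p' q' y' g1 g2 g3 =>
    have := b q
    have := b q'
    have e : q'.1.1 = q.1.1 := by omega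
    rw [e] at g3
    have hs : 0 < sc D q.1.1 := by unfold sc; split_ifs <;> positivity
    have m1 := Nat.mul_lt_mul_right (a := sc D q.1.1) (b := y) (c := y') hs
    have m2 := Nat.mul_lt_mul_right (a := sc D q.1.1) (b := y') (c := y) hs
    split_ifs at c1 c3 <;> omega
  case tr.sp p q y h1 h2 h3 p' q' j g1 g2 g3 g4 g5 =>
    have := b q
    have e : q.1.1 = D := by omega
    rw [sc, if_pos e] at h3
    exact dy g4 (h3 ▸ (hR j g3).mul_left y) (by split_ifs at c2 <;> omega)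
      (by split_ifs at c3 <;> omega)
  case tr.h1 p q y h1 h2 h3 p' g1 g2 g3 =>
    have := b q
    have e : q.1.1 = D := by omega
    rw [sc, if_pos e] at h3
    have h4 := p.2.2
    rw [if_neg (by omega)] at h4
    have h5 : 2 ^ D = 2 * 2 ^ p.1.1 := by rw [← pow_succ', ← h1, e]
    have := Nat.mul_le_mul_right (2 ^ 2 ^ D) (show y ≤ 2 ^ D by omega)
    split_ifs at c2 <;> omega
  case tr.m1 p q y h1 h2 h3 m => have := b q; omega
  case sp.tr p q j h1 h2 h3 h4 h5 p' q' y' g1 g2 g3 => have := b q'; omega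
  case sp.sp p q j h1 h2 h3 h4 h5 p' q' j' g1 g2 g3 g4 g5 =>
    rcases le_total j j' with e | e
    · exact dy h4 ((pow_dvd_pow _ e).trans g4) (by split_ifs at c1 <;> omega)
        (by split_ifs at c2 <;> omega)
    · exact dy g4 (h5 ▸ (Nat.dvd_add ((pow_dvd_pow _ e).trans h4) (pow_dvd_pow _ e)))
        (by split_ifs at c2 <;> omega) (by split_ifs at c3 <;> omega)
  case sp.h1 p q j h1 h2 h3 h4 h5 p' g1 g2 g3 =>
    exact dy h4 ((hR j h3).trans g2) (by split_ifs at c1 <;> omega) (by split_ifs at c2 <;> omega)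
  case h1.tr p h1 h2 h3 p' q' y' g1 g2 g3 => have := b q'; omega
  case m1.tr m p' q' y' g1 g2 g3 => have := b q'; omega

theorem planar : Lib.helper5.Book.Planar (fromRel (E : W D a b → _)) :=
  Lib.helper5.Book.book E pos pos_inj pg (fun _ _ h => (E_lt h).1) nocross

def own : ℕ → ℕ → ℕ × ℕ
  | 0, _ => (0, 0)
  | d + 1, x => if x % 2 = 0 then (d, x / 2) else own d (x / 2)

def mk (p : ℕ × ℕ) : W D a b := if h : Ok D p then .inl ⟨p, h⟩ else hub false

def tw : W D a b → W D a b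
  | .inr (.inr (.inr (j, c))) => .inr (.inr (.inr (j, !c)))
  | x => x

def IsM (x : W D a b) : Prop := ∃ m, x = .inr (.inr (.inr m))

def O (A : Finset (W D a b)) (g : W D a b → W D a b) : W D a b → W D a b → W D a b
  | .inl p, .inl q => mk (if q.1.1 = p.1.1 then own D (Nat.log 2 (q.1.2 - p.1.2)) else
      own q.1.1 (q.1.2 / sc D q.1.1))
  | .inl p, y => if y = hub false then .inl p else mk (own D (p.1.2 / 2 ^ 2 ^ D - 2 ^ D))
  | x, y => if y = tw x then (if x ∈ A then x else y) else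
      if x ∈ A then g x else if tw x ∈ A ∧ y = hub true then tw x else x

variable (A : Finset (W D a b)) (g : W D a b → W D a b)

theorem step {O} {x y v : W D a b} (h : E x y) (h' : O x y = v) : (Gv E O v).Reachable x y :=
  Adj.reachable ⟨fun e => (E_lt h).1.ne (by rw [e]), Or.inl ⟨h, h'⟩⟩

theorem chan (y : ℕ) (hy : y < 2 ^ D) (p : T D) (h1 : p.1.1 = D) (h2 : 2 ^ y ∣ p.1.2)
    (h3 : p.1.2 ≤ (2 ^ D + y) * 2 ^ 2 ^ D) :
    (Gv E (O A g) (mk (own D y))).Reachable (.inl p) (hub true) := by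
  generalize hn : (2 ^ D + y) * 2 ^ 2 ^ D - p.1.2 = n
  induction n using Nat.strong_induction_on generalizing p with
  | _ n ih =>
    have pR : 0 < 2 ^ 2 ^ D := by positivity
    rcases h3.eq_or_lt with e | e
    · refine step (.h1 p h1 (e ▸ dvd_mul_left _ _) (e ▸ Nat.mul_le_mul_right _ (by omega))) ?_
      simp [O, e, Nat.mul_div_cancel _ pR]
    have py : 0 < 2 ^ y := by positivity
    have h4 : p.1.2 + 2 ^ y ≤ (2 ^ D + y) * 2 ^ 2 ^ D := not_lt.mp fun q =>
      dy h2 ((pow_dvd_pow 2 hy.le).mul_left _) e q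
    have h5 := (Nat.mul_lt_mul_right pR).mpr (show 2 ^ D + y < 2 * 2 ^ D by omega)
    have ok : Ok D (D, p.1.2 + 2 ^ y) := ⟨le_rfl, by simp only [if_true]; omega⟩
    refine (step (.sp p ⟨_, ok⟩ y h1 rfl hy h2 rfl) ?_).trans
      (ih _ ?_ ⟨_, ok⟩ rfl (Nat.dvd_add h2 dvd_rfl) h4 rfl)
    · simp [O, h1, Nat.log_pow]
    · simp only
      omega

theorem ok_sc {d y : ℕ} (hd : d ≤ D) (hy : y < 2 ^ d) : Ok D (d, y * sc D d) := by
  refine ⟨hd, ?_⟩
  simp only [sc]
  split_ifs with h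
  · subst h
    exact (Nat.mul_lt_mul_right (by positivity)).mpr (by omega)
  · omega

theorem edge {d y : ℕ} (hd : d + 1 ≤ D) (hy : y < 2 ^ (d + 1)) (p : T D) (h : p.1 = (d, y / 2)) :
    (Gv E (O A g) (mk (own (d + 1) y))).Reachable (.inl p) (.inl ⟨_, ok_sc hd hy⟩) := by
  have hs : 0 < sc D (d + 1) := by unfold sc; split_ifs <;> positivity
  refine step (.tr p _ y (by rw [h]) (by rw [h]) rfl) ?_
  simp [O, h, Nat.mul_div_cancel _ hs]

theorem down (n : ℕ) : ∀ (d y : ℕ) (hd : d + n = D) (hy : y < 2 ^ d),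
    (Gv E (O A g) (mk (own d y))).Reachable (.inl ⟨_, ok_sc (by omega) hy⟩) (hub true) := by
  induction n with
  | zero =>
    rintro d y rfl hy
    refine chan A g y hy _ rfl ?_ ?_
    · simp only [sc, Nat.add_zero, if_true]
      exact (pow_dvd_pow 2 hy.le).mul_left _
    · simp only [sc, Nat.add_zero, if_true]
      exact Nat.mul_le_mul_right _ (by omega)
  | succ n ih =>
    intro d y hd hy
    have hy' : 2 * y + 1 < 2 ^ (d + 1) := by omega
    have e : own (d + 1) (2 * y + 1) = own d y := by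
      rw [own, if_neg (by omega), show (2 * y + 1) / 2 = y by omega]
    have := (edge A g (by omega) hy' ⟨_, ok_sc (D := D) (by omega) hy⟩ (by
      simp only [sc, if_neg (show d ≠ D by omega)]
      congr 1
      omega)).trans (ih (d + 1) _ (by omega) hy')
    rwa [e] at this

theorem tree (p : T D) : (Gv E (O A g) (.inl p)).Reachable (.inl p) (hub false) ∨
    (Gv E (O A g) (.inl p)).Reachable (.inl p) (hub true) := by
  obtain ⟨⟨d, x⟩, h1, h2⟩ := p
  rcases h1.eq_or_lt with e | e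
  · exact Or.inl (step (.h0 _ e) (by simp [O]))
  have h3 : x < 2 ^ d := by rwa [if_neg e.ne] at h2
  have hy' : 2 * x < 2 ^ (d + 1) := by omega
  have := (edge A g e hy' ⟨(d, x), h1, h2⟩ (by simp)).trans
    (down A g (D - (d + 1)) (d + 1) _ (by simp only at e; omega) hy')
  rw [own, if_pos (by omega), show 2 * x / 2 = x by omega, mk, dif_pos ⟨h1, h2⟩] at this
  exact Or.inr this

end Pool.Agent.H.MP_9b13a2_co
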