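import Mathlib
import Pool.Agent.H.MP_9b13a2_co.B

namespace Pool.Agent.H.MP_9b13a2_co

open Finset SimpleGraph

variable {D a b : ℕ} (A : Finset (W D a b)) (g : W D a b → W D a b)

theorem mh {x : W D a b} (hx : IsM x) (c : Bool) : E x (hub c) ∧ O A g x (hub c) =
    if x ∈ A then g x else if tw x ∈ A ∧ c = true then tw x else x := by
  obtain ⟨⟨j, d⟩, rfl⟩ := hx
  refine ⟨by cases c <;> constructor, ?_⟩
  cases d <;> cases c <;> simp [O, tw]

theorem tw_tw (x : W D a b) : tw (tw x) = x := by
  rcases x with _ | _ | _ | ⟨j, c⟩ <;> simp [tw]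

theorem reach (hA : ∀ w ∈ A, IsM w) (hg : ∀ v, v = hub true ∨ (∃ l, v = .inl l) → ∃ w ∈ A, g w = v)
    (v : W D a b) (hv : v ∉ A) : (Gv E (O A g) v).Reachable v (hub false) := by
  have key : v = hub true ∨ (∃ l, v = .inl l) →
      (Gv E (O A g) v).Reachable (hub true) (hub false) := by
    intro h
    obtain ⟨w, h1, h2⟩ := hg v h
    have := fun c => step (v := v) (O := O A g) (mh A g (hA w h1) c).1
      (by rw [(mh A g (hA w h1) c).2, if_pos h1, h2])
    exact (this true).symm.trans (this false)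
  rcases v with l | (_ | _) | i | m
  · exact (tree A g l).elim id fun h => h.trans (key (Or.inr ⟨l, rfl⟩))
  · rfl
  · exact key (Or.inl rfl)
  · exact step (.lf i) (by simp [O, tw, hv])
  · have := mh A g ⟨m, rfl⟩ false
    exact step this.1 (by simp [this.2, hv])

theorem reach2 (σ : W D a b → W D a b) (w : W D a b) (hw : w ∈ A) (h1 : IsM w) (h2 : IsM (σ w))
    (h3 : tw w ∉ A ∧ σ w ∉ A ∧ (tw (σ w) ∈ A → tw (σ w) = w)) :
    ∃ x, (Gv E (O A g) w).Reachable w x ∧
      (Gv E (O A g) (σ w)).Reachable (σ w) x := by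
  have a1 : (Gv E (O A g) w).Reachable w (tw w) := by
    obtain ⟨⟨j, _ | _⟩, rfl⟩ := h1
    · exact step (.mm j) (by simp [O, hw])
    · have := h3.1
      simp only [tw, Bool.not_true] at this
      exact (step (.mm j) (by simp [O, tw, this])).symm
  by_cases e : σ w = tw w
  · exact ⟨tw w, a1, e ▸ .refl _⟩
  have a2 := mh A g (x := tw w) (by obtain ⟨⟨j, c⟩, rfl⟩ := h1; exact ⟨_, rfl⟩) true
  have a3 := mh A g h2 true
  have a4 : tw (σ w) ∉ A := fun h => e (by rw [← tw_tw (σ w), h3.2.2 h])
  exact ⟨hub true, a1.trans (step a2.1 (by simp [a2.2, h3.1, tw_tw, hw])),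
    step a3.1 (by simp [a3.2, h3.2.1, a4])⟩

theorem main (he : Even (Fintype.card (W D a b)))
    (hb : 6 * Fintype.card (T D) + 7 + a ≤ 2 * b) :
    PathPairable (fromRel (E : W D a b → _)) := by
  classical
  refine pp _ (fun x y h h' => (E_lt h).1.not_gt (E_lt h').1) he
    fun σ h1 h2 => ?_
  obtain ⟨A, hA, hc, hI⟩ := greedy (univ.filter fun x => IsM x ∧ IsM (σ x)) σ tw h1 tw_tw h2 (by
    intro v hv
    obtain ⟨⟨⟨j, c⟩, rfl⟩, -⟩ := (mem_filter.mp hv).2
    simp [tw])
  have hM : (univ.filter fun x : W D a b => IsM x).card = 2 * b := by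
    rw [show (univ.filter fun x : W D a b => IsM x) =
      univ.image fun m => Sum.inr (.inr (.inr m)) by ext; simp [IsM, eq_comm],
      card_image_of_injective _ (by intro _ _ h; simpa using h)]
    simp [mul_comm]
  have a1 := card_filter_add_card_filter_not (s := univ) fun x : W D a b => IsM x
  have a2 := card_filter_add_card_filter_not (s := univ.filter fun x : W D a b => IsM x)
    fun x => IsM (σ x)
  have a3 : ((univ.filter fun x : W D a b => IsM x).filter fun x => ¬ IsM (σ x)).card ≤
      (univ.filter fun x : W D a b => ¬ IsM x).card :=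
    card_le_card_of_injOn σ (fun x hx => by simpa using (mem_filter.mp hx).2)
      fun x _ y _ h => by rw [← h1 x, h, h1]
  rw [filter_filter] at a2
  simp only [card_univ, Fintype.card_sum, Fintype.card_bool, Fintype.card_fin,
    Fintype.card_prod] at a1
  obtain ⟨f⟩ : Nonempty (Option (T D) ↪ A) := Function.Embedding.nonempty_of_card_le (by
    simp only [Fintype.card_option, Fintype.card_coe]
    omega)
  have inj : Function.Injective fun t => (f t : W D a b) := Subtype.val_injective.comp f.injective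
  let g := Function.extend (fun t => (f t : W D a b)) (fun t => t.elim (hub true) .inl) id
  have hg : ∀ v, v = hub true ∨ (∃ l, v = .inl l) → ∃ w ∈ A, g w = v := by
    rintro v (rfl | ⟨l, rfl⟩)
    · exact ⟨_, (f none).2, inj.extend_apply _ _ _⟩
    · exact ⟨_, (f (some l)).2, inj.extend_apply _ _ _⟩
  have hA' := fun w (h : w ∈ A) => (mem_filter.mp (hA h)).2
  refine ⟨O A g, fun v => ?_⟩
  by_cases c1 : v ∈ A
  · exact reach2 A g σ v c1 (hA' v c1).1 (hA' v c1).2 (hI v c1)
  by_cases c2 : σ v ∈ A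
  · obtain ⟨x, a, b⟩ := reach2 A g σ _ c2 (hA' _ c2).1 (hA' _ c2).2 (hI _ c2)
    rw [h1] at b
    exact ⟨x, b, a⟩
  exact ⟨_, reach A g (fun w h => (hA' w h).1) hg v c1, reach A g (fun w h => (hA' w h).1) hg _ c2⟩

theorem conn (hb : 0 < b) (v : W D a b) : (fromRel (E : W D a b → _)).Reachable v (hub false) := by
  have hle : ∀ v, Gv E (O ∅ id) v ≤ fromRel (E : W D a b → _) :=
    fun _ _ _ h => ⟨h.1, h.2.imp And.left And.left⟩
  have hm : ∀ m c, (fromRel (E : W D a b → _)).Reachable (.inr (.inr (.inr m))) (hub c) :=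
    fun m c => (step (mh ∅ id ⟨m, rfl⟩ c).1 rfl).mono (hle _)
  have key := (hm (⟨0, hb⟩, true) true).symm.trans (hm _ false)
  rcases v with l | (_ | _) | i | m
  · exact (tree ∅ id l).elim (fun h => h.mono (hle _)) fun h => (h.mono (hle _)).trans key
  · rfl
  · exact key
  · exact (step (.lf i) rfl).mono (hle _)
  · exact hm m false

theorem far {u v : W D a b} (p : (fromRel (E : W D a b → _)).Walk u v) :
    lv v ≤ lv u + 4 * p.length := by
  induction p with
  | nil => simp
  | cons h p ih =>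
    rw [Walk.length_cons]
    rcases h.2 with h | h <;> have := E_lt h <;> rw [pos_lt] at this <;> omega

end Pool.Agent.H.MP_9b13a2_co
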